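import Pool.Agent.X134.FC.Order

/-!
# Feynman checkers: the equal-sign order parameter

The conjectured value of the limit of `S_v(t)`, `0 < v < 1/√2`, is not correct.
-/

namespace Pool.Agent.Results.MP_10800c_mp.OrderParameter

open Filter Topology Finset

/-- The amplitude `a(x, t)` at the time `t = n + 1`. A checker path from `(0, 0)` to `(x, n + 1)` is
given by its steps: `s i = true` is the step `(1, 1)` and `s i = false` is the step `(-1, 1)`, the
first step is `(1, 1)`, the turns are the indices `i` with `s i ≠ s (i + 1)`. -/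
noncomputable def amp (x : ℤ) (n : ℕ) : ℂ :=
  ((2 : ℝ) ^ (-(n : ℝ) / 2) : ℝ) * Complex.I *
    ∑ s ∈ univ.filter (fun s : Fin (n + 1) → Bool =>
      s 0 = true ∧ ∑ i, (if s i then (1 : ℤ) else -1) = x),
      (-Complex.I) ^ ((univ.filter (fun i : Fin n => s i.castSucc ≠ s i.succ)).card)

/-- The sum `S_v(t)` at the time `t = n + 1`: the sum over the integers `0 ≤ x ≤ v t` with
`x ≡ t (mod 2)` of `(2 / t) |a₂(x, t) / a(x, t)|²`. -/
noncomputable def S (v : ℝ) (n : ℕ) : ℝ :=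
  ∑ x ∈ (range (⌊v * ((n : ℝ) + 1)⌋₊ + 1)).filter (fun x => x % 2 = (n + 1) % 2),
    2 / ((n : ℝ) + 1) * ‖((amp x n).im : ℂ) / amp x n‖ ^ 2

open Pool.Agent.X134.FC in
lemma amp_frac (n x : ℕ) (hx : x ≤ n) (hp : x % 2 = (n + 1) % 2) :
    ‖((amp x n).im : ℂ) / amp x n‖ ^ 2 = ff n ((n + 1 - x) / 2) := by
  obtain ⟨L, hL⟩ : ∃ L, n + 1 - x = 2 * L := ⟨(n + 1 - x) / 2, by omega⟩
  have hL2 : (n + 1 - x) / 2 = L := by omega
  have hLn : L ≤ n := by omega
  have e := az_eq n (n - L) L (by omega)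
  rw [show (((n - L : ℕ) : ℤ) + 1 - (L : ℤ)) = (x : ℤ) by omega] at e
  have h : (∑ s ∈ Finset.univ.filter
      (fun s : Fin (n+1) → Bool =>
        s 0 = true ∧ ∑ i, (if s i then (1:ℤ) else -1) = (x : ℤ)),
      (-Complex.I) ^ ((Finset.univ.filter
        (fun i : Fin n => s i.castSucc ≠ s i.succ)).card)) = T n x true + T n x false := by
    unfold T
    rw [← sum_add_distrib, sum_filter]
    refine sum_congr rfl fun s _ => ?_
    by_cases h0 : s 0 = true ∧ ∑ i, (if s i then (1:ℤ) else -1) = (x : ℤ)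
    · cases hl : s (Fin.last n)
      · simp [h0]
      · simp [h0]
    · have h1 : ¬ (s 0 = true ∧ ∑ i, (if s i then (1:ℤ) else -1) = (x : ℤ) ∧ s (Fin.last n) = true) :=
        fun h => h0 ⟨h.1, h.2.1⟩
      have h2 : ¬ (s 0 = true ∧ ∑ i, (if s i then (1:ℤ) else -1) = (x : ℤ) ∧ s (Fin.last n) = false) :=
        fun h => h0 ⟨h.1, h.2.1⟩
      rw [if_neg h0, if_neg h1, if_neg h2, add_zero]
  set r : ℝ := (2 : ℝ) ^ (-(n : ℝ) / 2) with hr
  have hrpos : 0 < r := by positivity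
  have hamp : amp x n = ⟨r * (aa (n - L) L : ℝ), r * (bb (n - L) L : ℝ)⟩ := by
    unfold amp
    rw [h, (T_eq n x).1, (T_eq n x).2, e, ← hr]
    apply Complex.ext
    · simp
    · simp
  rw [hamp, hL2]
  unfold ff
  rw [norm_div, div_pow, Complex.sq_norm, Complex.sq_norm, Complex.normSq_ofReal, Complex.normSq_mk]
  show r * (bb (n - L) L : ℝ) * (r * (bb (n - L) L : ℝ)) /
    (r * (aa (n - L) L : ℝ) * (r * (aa (n - L) L : ℝ)) +
      r * (bb (n - L) L : ℝ) * (r * (bb (n - L) L : ℝ))) = _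
  rw [show r * (bb (n - L) L : ℝ) * (r * (bb (n - L) L : ℝ)) = r ^ 2 * (bb (n - L) L : ℝ) ^ 2 by ring,
    show r * (aa (n - L) L : ℝ) * (r * (aa (n - L) L : ℝ)) + r ^ 2 * (bb (n - L) L : ℝ) ^ 2 =
      r ^ 2 * ((aa (n - L) L : ℝ) ^ 2 + (bb (n - L) L : ℝ) ^ 2) by ring,
    mul_div_mul_left _ _ (by positivity)]

open Pool.Agent.X134.FC in
lemma S_eq (v : ℝ) (h0 : 0 < v) (h1 : v < 1) (n : ℕ) :
    S v n = 2 / ((n : ℝ) + 1) * SS n ⌊v * ((n : ℝ) + 1)⌋₊ := by
  unfold S SS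
  rw [mul_sum]
  refine sum_congr rfl fun x hx => ?_
  rw [mem_filter, mem_range] at hx
  have h2 : x ≤ ⌊v * ((n : ℝ) + 1)⌋₊ := by omega
  have h3 : (x : ℝ) ≤ v * ((n : ℝ) + 1) :=
    le_trans (by exact_mod_cast h2) (Nat.floor_le (by positivity))
  have h4 : (x : ℝ) < ((n + 1 : ℕ) : ℝ) := by
    push_cast
    refine h3.trans_lt ?_
    have : (0 : ℝ) < (n : ℝ) + 1 := by positivity
    nlinarith
  have h5 : x < n + 1 := by exact_mod_cast h4
  rw [amp_frac n x (by omega) hx.2]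

/-- The statement of Q1 is false. -/
theorem result : ¬ ∀ v : ℝ, 0 < v → v < 1 / √2 →
    Tendsto (fun n : ℕ => S v n) atTop
      (𝓝 (1 / 2 * (1 + v - √(1 - v ^ 2) + Real.log ((1 + √(1 - v ^ 2)) / 2)))) := by
  intro hcon
  obtain ⟨η, hη, h⟩ := Pool.Agent.X134.FC.SS_lower
  have hs : (1 / 2 : ℝ) < 1 / √2 := by
    apply one_div_lt_one_div_of_lt (by positivity)
    rw [Real.sqrt_lt' (by norm_num)]; norm_num
  have hs1 : 1 / √2 < (1 : ℝ) := by
    rw [div_lt_one (by positivity), Real.lt_sqrt (by norm_num)]; norm_num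
  set v₁ : ℝ := max (1 / 2) (1 / √2 - η / 2) with hv₁
  have h1 : v₁ < 1 / √2 := by
    rw [hv₁, max_lt_iff]; exact ⟨hs, by linarith⟩
  have h2 : 1 / √2 - η < v₁ := lt_of_lt_of_le (by linarith) (le_max_right _ _)
  have h3 : 0 < v₁ := lt_of_lt_of_le (by norm_num) (le_max_left _ _)
  set v₂ : ℝ := (v₁ + 1 / √2) / 2 with hv₂
  have h4 : v₁ < v₂ := by rw [hv₂]; linarith
  have h5 : v₂ < 1 / √2 := by rw [hv₂]; linarith
  have l1 := hcon v₁ h3 h1
  have l2 := hcon v₂ (h3.trans h4) h5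
  have l3 := l2.sub l1
  have l4 : Tendsto (fun n : ℕ => 0.73 * (v₂ - v₁) - 150 / ((n : ℝ) + 1)) atTop
      (𝓝 (0.73 * (v₂ - v₁) - 0)) := by
    refine tendsto_const_nhds.sub ?_
    have := (tendsto_one_div_add_atTop_nhds_zero_nat (𝕜 := ℝ)).const_mul 150
    rw [mul_zero] at this
    refine this.congr fun n => ?_
    ring
  have l5 := le_of_tendsto_of_tendsto l4 l3 (by
    filter_upwards [h v₁ v₂ h3 h4 h5 h2] with n hn
    rw [S_eq v₂ (h3.trans h4) (h5.trans hs1), S_eq v₁ h3 (h1.trans hs1), ← mul_sub]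
    exact hn)
  have l6 := Pool.Agent.X134.FC.FF_upper v₁ v₂ h3 h4 h5
  unfold Pool.Agent.X134.FC.FF at l6
  linarith

end Pool.Agent.Results.MP_10800c_mp.OrderParameter
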